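import Pool.Agent.H28.N6.Targets

/-! DDP. The determinant of the model pencil: `gA 1 = gA 0 * C` with the companion matrix `C`. -/

set_option autoImplicit false

open MeasureTheory Pool.Agent.H28.N6

namespace Pool.Agent.H45.N6D

open Polynomial Pool.Agent.H34.N6

/-- the companion matrix -/
noncomputable def cmp {F : Type} [Field F] (P : F[X]) : Matrix (Fin 7) (Fin 7) F := fun k j =>
  if (j : ℕ) + 1 = (k : ℕ) then 1 else if (j : ℕ) = 6 then -P.coeff (k : ℕ) else 0

theorem as_sum7 {F : Type} [Field F] {P : F[X]} (hP : P.Monic) (h7 : P.natDegree = 7) :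
    P = X ^ 7 + ∑ k : Fin 7, C (P.coeff (k : ℕ)) * X ^ (k : ℕ) := by
  have h := hP.as_sum
  rw [h7, Finset.sum_range] at h
  exact h

theorem cmp_row {F : Type} [Field F] {P : F[X]} (hP : P.Monic) (h7 : P.natDegree = 7) :
    ∀ j : Fin 7, ∑ k : Fin 7, (X : F[X]) ^ (k : ℕ) * (cmp P).charmatrix k j =
      if (j : ℕ) = 6 then P else 0 := by
    intro j
    have h1 : ∀ k : Fin 7, (X : F[X]) ^ (k : ℕ) * (cmp P).charmatrix k j =
        X ^ (k : ℕ) * (if k = j then X else 0) - X ^ (k : ℕ) * C (cmp P k j) := by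
      intro k
      rw [Matrix.charmatrix_apply, mul_sub, Matrix.diagonal_apply]
    rw [Finset.sum_congr rfl (fun k _ => h1 k), Finset.sum_sub_distrib]
    have h2 : ∑ k : Fin 7, (X : F[X]) ^ (k : ℕ) * (if k = j then X else 0) =
        X ^ ((j : ℕ) + 1) := by
      rw [Finset.sum_eq_single j]
      · rw [if_pos rfl, pow_succ]
      · intro k _ hk
        rw [if_neg hk, mul_zero]
      · intro h
        exact absurd (Finset.mem_univ j) h
    rw [h2]
    by_cases hj : (j : ℕ) = 6
    · rw [if_pos hj]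
      have h3 : ∀ k : Fin 7, (X : F[X]) ^ (k : ℕ) * C (cmp P k j) =
          -(C (P.coeff (k : ℕ)) * X ^ (k : ℕ)) := by
        intro k
        have hk : ¬ (j : ℕ) + 1 = (k : ℕ) := by
          have := k.2
          omega
        unfold cmp
        rw [if_neg hk, if_pos hj, C_neg]
        ring
      rw [Finset.sum_congr rfl (fun k _ => h3 k), Finset.sum_neg_distrib, sub_neg_eq_add, hj]
      exact (as_sum7 hP h7).symm
    · rw [if_neg hj]
      have hj2 : (j : ℕ) + 1 < 7 := by
        have := j.2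
        omega
      have h3 : ∑ k : Fin 7, (X : F[X]) ^ (k : ℕ) * C (cmp P k j) = X ^ ((j : ℕ) + 1) := by
        rw [Finset.sum_eq_single (⟨(j : ℕ) + 1, hj2⟩ : Fin 7)]
        · unfold cmp
          rw [if_pos rfl, C_1, mul_one]
        · intro k _ hk
          have hk2 : ¬ (j : ℕ) + 1 = (k : ℕ) := by
            intro h
            exact hk (Fin.ext h.symm)
          unfold cmp
          rw [if_neg hk2, if_neg hj, C_0, mul_zero]
        · intro h
          exact absurd (Finset.mem_univ _) h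
      rw [h3, sub_self]
theorem gen_dvd {R : Type} [CommRing R] (M : Matrix (Fin 7) (Fin 7) R) (v : Fin 7 → R) (p : R)
    (h0 : v 0 = 1) (hv : ∀ j : Fin 7, ∑ k : Fin 7, v k * M k j = if (j : ℕ) = 6 then p else 0) :
    p ∣ M.det := by
  have h3 : Matrix.vecMul v (M * M.adjugate) 0 = M.det := by
    rw [Matrix.mul_adjugate, Matrix.vecMul_smul, Matrix.vecMul_one, Pi.smul_apply, h0,
      smul_eq_mul, mul_one]
  have h4 : Matrix.vecMul v (M * M.adjugate) 0 = p * M.adjugate 6 0 := by
    rw [← Matrix.vecMul_vecMul]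
    have h5 : Matrix.vecMul v M = fun j : Fin 7 => if (j : ℕ) = 6 then p else 0 := funext hv
    rw [h5]
    change ∑ j : Fin 7, (if (j : ℕ) = 6 then p else 0) * M.adjugate j 0 = _
    rw [Finset.sum_eq_single (6 : Fin 7)]
    · rw [if_pos (show (((6 : Fin 7) : Fin 7) : ℕ) = 6 from rfl)]
    · intro k _ hk
      have hk2 : ¬ (k : ℕ) = 6 := by
        intro h
        exact hk (Fin.ext h)
      rw [if_neg hk2, zero_mul]
    · intro h
      exact absurd (Finset.mem_univ _) h
  rw [← h3, h4]
  exact dvd_mul_right _ _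

theorem cmp_charpoly {F : Type} [Field F] {P : F[X]} (hP : P.Monic) (h7 : P.natDegree = 7) :
    (cmp P).charpoly = P := by
  refine eq_of_monic_of_dvd_of_natDegree_le hP (Matrix.charpoly_monic _) (gen_dvd _
    (fun k : Fin 7 => (X : F[X]) ^ (k : ℕ)) P (pow_zero _) (cmp_row hP h7)) ?_
  rw [Matrix.charpoly_natDegree_eq_dim, h7, Fintype.card_fin]

theorem lam_lin {F : Type} [Field F] (P g : F[X]) :
    lam P g = lcoeff F (P.natDegree - 1) (modByMonicHom P g) := rfl

theorem lam_dvd {F : Type} [Field F] {P : F[X]} (hP : P.Monic) {g : F[X]} (h : P ∣ g) :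
    lam P g = 0 := by
  unfold lam
  rw [(modByMonic_eq_zero_iff_dvd hP).2 h, coeff_zero]

theorem lam_sum {F : Type} [Field F] (P : F[X]) {ι : Type} (s : Finset ι) (f : ι → F[X])
    (a : ι → F) : lam P (∑ i ∈ s, C (a i) * f i) = ∑ i ∈ s, a i * lam P (f i) := by
  rw [lam_lin, map_sum, map_sum]
  refine Finset.sum_congr rfl (fun i _ => ?_)
  rw [lam_lin, ← smul_eq_C_mul, map_smul, map_smul, smul_eq_mul]

theorem lam_sub {F : Type} [Field F] (P g h : F[X]) : lam P (g - h) = lam P g - lam P h := by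
  rw [lam_lin, lam_lin, lam_lin, map_sub, map_sub]

theorem gA_one {F : Type} [Field F] {P : F[X]} (D : F[X]) (hP : P.Monic)
    (h7 : P.natDegree = 7) : gA P D 1 = gA P D 0 * cmp P := by
  ext i j
  rw [Matrix.mul_apply]
  by_cases hj : (j : ℕ) = 6
  · have h1 : ∀ k : Fin 7, gA P D 0 i k * cmp P k j =
        -(P.coeff (k : ℕ) * lam P (D * X ^ ((i : ℕ) + (k : ℕ)))) := by
      intro k
      have hk : ¬ (j : ℕ) + 1 = (k : ℕ) := by
        have := k.2
        omega
      unfold cmp gA
      rw [if_neg hk, if_pos hj, add_zero]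
      ring
    rw [Finset.sum_congr rfl (fun k _ => h1 k), Finset.sum_neg_distrib,
      ← lam_sum P Finset.univ (fun k : Fin 7 => D * X ^ ((i : ℕ) + (k : ℕ)))
        (fun k => P.coeff (k : ℕ))]
    have h2 : lam P (P * (D * X ^ (i : ℕ))) = 0 := lam_dvd hP (dvd_mul_right _ _)
    have h3 : P * (D * X ^ (i : ℕ)) = D * X ^ ((i : ℕ) + (j : ℕ) + 1) -
        -(∑ k : Fin 7, C (P.coeff (k : ℕ)) * (D * X ^ ((i : ℕ) + (k : ℕ)))) := by
      rw [sub_neg_eq_add]
      conv_lhs => rw [as_sum7 hP h7]
      rw [add_mul, Finset.sum_mul, hj]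
      refine congrArg₂ (· + ·) (by ring) (Finset.sum_congr rfl (fun k _ => ?_))
      rw [pow_add]
      ring
    rw [h3, lam_sub, sub_eq_zero] at h2
    have h4 : lam P (-(∑ k : Fin 7, C (P.coeff (k : ℕ)) * (D * X ^ ((i : ℕ) + (k : ℕ))))) =
        -lam P (∑ k : Fin 7, C (P.coeff (k : ℕ)) * (D * X ^ ((i : ℕ) + (k : ℕ)))) := by
      rw [lam_lin, lam_lin, map_neg, map_neg]
    rw [← h4, ← h2]
    rfl
  · have hj2 : (j : ℕ) + 1 < 7 := by
      have := j.2
      omega
    rw [Finset.sum_eq_single (⟨(j : ℕ) + 1, hj2⟩ : Fin 7)]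
    · unfold cmp gA
      rw [if_pos rfl, mul_one]
      rfl
    · intro k _ hk
      have hk2 : ¬ (j : ℕ) + 1 = (k : ℕ) := by
        intro h
        exact hk (Fin.ext h.symm)
      unfold cmp
      rw [if_neg hk2, if_neg hj, mul_zero]
    · intro h
      exact absurd (Finset.mem_univ _) h

theorem gA_det {F : Type} [Field F] {P D : F[X]} (hP : P.Monic) (h7 : P.natDegree = 7)
    (hc : IsCoprime P D) : (gA P D 0).det ≠ 0 := by
  intro h0
  obtain ⟨c, hc0, hcz⟩ := Matrix.exists_mulVec_eq_zero_iff.2 h0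
  set g : F[X] := ∑ j : Fin 7, C (c j) * X ^ (j : ℕ) with hg
  have hdeg : g.degree < 7 := by
    rw [hg]
    refine lt_of_le_of_lt (degree_sum_le _ _) ((Finset.sup_lt_iff (by decide)).2 ?_)
    intro j _
    refine lt_of_le_of_lt (degree_C_mul_X_pow_le _ _) ?_
    exact_mod_cast j.2
  have h1 : ∀ i : Fin 7, lam P (D * g * X ^ (i : ℕ)) = 0 := by
    intro i
    have h2 := congrFun hcz i
    have h3 : D * g * X ^ (i : ℕ) = ∑ j : Fin 7, C (c j) * (D * X ^ ((i : ℕ) + (j : ℕ))) := by
      rw [hg, Finset.mul_sum, Finset.sum_mul]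
      refine Finset.sum_congr rfl (fun j _ => ?_)
      rw [pow_add]
      ring
    rw [h3, lam_sum]
    rw [← h2.trans (Pi.zero_apply _)]
    change _ = ∑ j, gA P D 0 i j * c j
    refine Finset.sum_congr rfl (fun j _ => ?_)
    unfold gA
    rw [add_zero, mul_comm]
  set h : F[X] := (D * g) %ₘ P with hh
  have hhd : h.degree < 7 := by
    have := degree_modByMonic_lt (D * g) hP
    rw [degree_eq_natDegree hP.ne_zero, h7] at this
    exact_mod_cast this
  have h4 : ∀ i : Fin 7, lam P (h * X ^ (i : ℕ)) = 0 := by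
    intro i
    rw [← h1 i]
    have h5 : P ∣ h * X ^ (i : ℕ) - D * g * X ^ (i : ℕ) := by
      rw [← sub_mul]
      refine dvd_mul_of_dvd_left ?_ _
      rw [hh]
      have h6 := modByMonic_add_div (D * g) P
      refine ⟨-(D * g /ₘ P), ?_⟩
      linear_combination h6
    have h7 := lam_dvd hP h5
    rw [lam_sub, sub_eq_zero] at h7
    exact h7
  have hz : h = 0 := by
    by_contra hne
    have hd : h.natDegree < 7 := by
      rw [degree_eq_natDegree hne] at hhd
      exact_mod_cast hhd
    have h5 := h4 ⟨6 - h.natDegree, by omega⟩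
    unfold lam at h5
    have h6 : (h * X ^ (6 - h.natDegree)) %ₘ P = h * X ^ (6 - h.natDegree) := by
      rw [modByMonic_eq_self_iff hP, degree_mul, degree_X_pow, degree_eq_natDegree hne,
        degree_eq_natDegree hP.ne_zero, h7]
      have : h.natDegree + (6 - h.natDegree) < 7 := by omega
      exact_mod_cast this
    rw [h6, h7] at h5
    have h8 : (7 - 1 : ℕ) = h.natDegree + (6 - h.natDegree) := by omega
    rw [h8, coeff_mul_X_pow] at h5
    exact hne (leadingCoeff_eq_zero.1 h5)
  have h5 : P ∣ D * g := (modByMonic_eq_zero_iff_dvd hP).1 hz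
  have h6 : P ∣ g := hc.dvd_of_dvd_mul_left h5
  have h8 : g = 0 := by
    by_contra hne
    have := degree_le_of_dvd h6 hne
    rw [degree_eq_natDegree hP.ne_zero, h7] at this
    exact absurd (lt_of_le_of_lt this hdeg) (by simp)
  apply hc0
  funext j
  have h9 : g.coeff (j : ℕ) = c j := by
    rw [hg, finset_sum_coeff, Finset.sum_eq_single j]
    · rw [coeff_C_mul_X_pow, if_pos rfl]
    · intro k _ hk
      rw [coeff_C_mul_X_pow, if_neg (fun h => hk (Fin.ext h.symm))]
    · intro h
      exact absurd (Finset.mem_univ _) h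
  rw [← h9, h8, coeff_zero, Pi.zero_apply]

section gen

variable {F n : Type} [Field F] [Fintype n] [DecidableEq n]

theorem e6 (A Q : Matrix n n F) :
    (A * Q).map C + (X : F[X]) • (-A).map C = -(A.map C * Q.charmatrix) := by
  refine Matrix.ext (fun i j => ?_)
  rw [Matrix.add_apply, Matrix.smul_apply, Matrix.map_apply, Matrix.map_apply, smul_eq_mul,
    Matrix.neg_apply, C_neg, mul_neg, Matrix.neg_apply, Matrix.mul_apply, Matrix.mul_apply,
    map_sum]
  have h2 : ∀ k : n, A.map C i k * Q.charmatrix k j =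
      C (A i k) * (if k = j then X else 0) - C (A i k * Q k j) := by
    intro k
    rw [Matrix.charmatrix_apply, mul_sub, Matrix.diagonal_apply, C_mul, Matrix.map_apply]
  rw [Finset.sum_congr rfl (fun k _ => h2 k), Finset.sum_sub_distrib]
  have h3 : ∑ k : n, C (A i k) * (if k = j then (X : F[X]) else 0) = C (A i j) * X := by
    rw [Finset.sum_eq_single j]
    · rw [if_pos rfl]
    · intro k _ hk
      rw [if_neg hk, mul_zero]
    · intro h
      exact absurd (Finset.mem_univ j) h
  rw [h3, neg_sub, mul_comm X, sub_eq_add_neg]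

theorem e9 (A Q : Matrix n n F) :
    dp (A * Q) (-A) = (-1) ^ Fintype.card n * (C A.det * Q.charpoly) := by
  unfold dp
  rw [e6, Matrix.det_neg, Matrix.det_mul, ← RingHom.mapMatrix_apply, ← RingHom.map_det,
    Matrix.charpoly]

end gen

theorem pf_DDP : T_DDP := by
  intro F _ P D hP h7 hc
  refine ⟨-(gA P D 0).det, neg_ne_zero.2 (gA_det hP h7 hc), ?_⟩
  rw [gA_one D hP h7, e9, cmp_charpoly hP h7, Fintype.card_fin, Odd.neg_one_pow (by decide),
    neg_mul, one_mul, C_neg, neg_mul]

end Pool.Agent.H45.N6D
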