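import Pool.Agent.H28.N6.Targets

/-! DEN. If `B` is anisotropic, the `A` for which `det (A + X B)` has only simple roots in `F`,
none in a given finite set, are dense. -/

set_option autoImplicit false

open MeasureTheory Pool.Agent.H28.N6

namespace Pool.Agent.H45.N6D

open Polynomial Topology

/-- block diagonal matrix with one entry `a` and a block `Y` -/
def bd {R : Type} [CommRing R] {n : ℕ} (a : R) (Y : Matrix (Fin n) (Fin n) R) :
    Matrix (Fin (n + 1)) (Fin (n + 1)) R := fun i j =>
  Fin.cases (Fin.cases a (fun _ => 0) j) (fun i' => Fin.cases 0 (fun j' => Y i' j') j) i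

section bd

variable {R : Type} [CommRing R] {n : ℕ} (a : R) (Y : Matrix (Fin n) (Fin n) R)

theorem bd_00 : bd a Y 0 0 = a := rfl

theorem bd_0s (j : Fin n) : bd a Y 0 j.succ = 0 := rfl

theorem bd_s0 (i : Fin n) : bd a Y i.succ 0 = 0 := rfl

theorem bd_ss (i j : Fin n) : bd a Y i.succ j.succ = Y i j := rfl

theorem det_bd : (bd a Y).det = a * Y.det := by
  rw [Matrix.det_succ_row_zero, Fin.sum_univ_succ]
  have h1 : ∀ j : Fin n, (-1 : R) ^ ((j.succ : Fin (n + 1)) : ℕ) * bd a Y 0 j.succ *
      ((bd a Y).submatrix Fin.succ (j.succ.succAbove)).det = 0 := by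
    intro j
    rw [bd_0s, mul_zero, zero_mul]
  rw [Finset.sum_congr rfl (fun j _ => h1 j), Finset.sum_const_zero, add_zero, bd_00]
  have h2 : (bd a Y).submatrix Fin.succ ((0 : Fin (n + 1)).succAbove) = Y := by
    refine Matrix.ext (fun i j => ?_)
    rw [Matrix.submatrix_apply, Fin.succAbove_zero, bd_ss]
  rw [h2, Fin.val_zero, pow_zero, one_mul]

end bd

section dp

variable {F : Type} [Field F]

theorem dp_bd {n : ℕ} (a b : F) (Y W : Matrix (Fin n) (Fin n) F) :
    dp (bd a Y) (bd b W) = (C a + X * C b) * dp Y W := by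
  unfold dp
  have h : (bd a Y).map C + (X : F[X]) • (bd b W).map C =
      bd (C a + X * C b) (Y.map C + (X : F[X]) • W.map C) := by
    refine Matrix.ext (fun i j => ?_)
    rw [Matrix.add_apply, Matrix.smul_apply, Matrix.map_apply, Matrix.map_apply, smul_eq_mul]
    refine Fin.cases ?_ (fun i' => ?_) i
    · refine Fin.cases ?_ (fun j' => ?_) j
      · rw [bd_00, bd_00, bd_00]
      · rw [bd_0s, bd_0s, bd_0s, C_0, mul_zero, add_zero]
    · refine Fin.cases ?_ (fun j' => ?_) j
      · rw [bd_s0, bd_s0, bd_s0, C_0, mul_zero, add_zero]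
      · rw [bd_ss, bd_ss, bd_ss, Matrix.add_apply, Matrix.smul_apply, Matrix.map_apply,
          Matrix.map_apply, smul_eq_mul]
  rw [h, det_bd]

variable {n : Type} [Fintype n] [DecidableEq n]

theorem det_mapC (M : Matrix n n F) : (M.map C).det = C M.det := by
  rw [← RingHom.mapMatrix_apply, ← RingHom.map_det]

theorem dp_cong (N Y W : Matrix n n F) :
    dp (N.transpose * Y * N) (N.transpose * W * N) = C N.det * C N.det * dp Y W := by
  unfold dp
  have h : (N.transpose * Y * N).map C + (X : F[X]) • (N.transpose * W * N).map C =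
      N.transpose.map C * (Y.map C + (X : F[X]) • W.map C) * N.map C := by
    rw [Matrix.map_mul, Matrix.map_mul, Matrix.map_mul, Matrix.map_mul, Matrix.mul_add,
      Matrix.add_mul, Matrix.mul_smul, Matrix.smul_mul]
  rw [h, Matrix.det_mul, Matrix.det_mul, det_mapC, det_mapC, Matrix.det_transpose]
  ring

theorem dp_ev (A B : Matrix n n F) (r : F) : (dp A B).eval r = (A + r • B).det := by
  unfold dp
  rw [← coe_evalRingHom, RingHom.map_det, RingHom.mapMatrix_apply]
  refine congrArg Matrix.det (Matrix.ext (fun i j => ?_))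
  rw [Matrix.map_apply, Matrix.add_apply, Matrix.smul_apply, Matrix.add_apply,
    Matrix.smul_apply, Matrix.map_apply, Matrix.map_apply, coe_evalRingHom, smul_eq_mul,
    smul_eq_mul, eval_add, eval_mul, eval_C, eval_C, eval_X]

end dp

/-- product of a matrix with a block diagonal shape -/
theorem qf_cong {F ι : Type} [Field F] [Fintype ι] (G M : Matrix ι ι F) (z : ι → F) :
    qf (M.transpose * G * M) z = qf G (M.mulVec z) := by
  unfold qf
  rw [← Matrix.mulVec_mulVec, ← Matrix.mulVec_mulVec, Matrix.dotProduct_mulVec z,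
    Matrix.vecMul_transpose]

theorem qf_bd0 {F : Type} [Field F] {n : ℕ} (a : F) (Y : Matrix (Fin n) (Fin n) F)
    (z : Fin n → F) : qf (bd a Y) (Fin.cons 0 z : Fin (n + 1) → F) = qf Y z := by
  unfold qf dotProduct Matrix.mulVec dotProduct
  rw [Fin.sum_univ_succ, Fin.cons_zero, zero_mul, zero_add]
  refine Finset.sum_congr rfl (fun i _ => ?_)
  rw [Fin.cons_succ, Fin.sum_univ_succ, Fin.cons_zero, mul_zero, zero_add]
  refine congrArg (fun t => z i * t) (Finset.sum_congr rfl (fun j _ => ?_))
  change bd a Y i.succ j.succ * (Fin.cons 0 z : Fin (n + 1) → F) j.succ = Y i j * z j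
  rw [Fin.cons_succ, bd_ss]

theorem exists_near {F : Type} [NontriviallyNormedField F] (Z : Finset F) (r : F) (ε : ℝ)
    (hε : 0 < ε) : ∃ r' : F, r' ∉ Z ∧ ‖r' - r‖ < ε := by
  have h1 : (Metric.ball r ε).Infinite := infinite_of_mem_nhds r (Metric.ball_mem_nhds r hε)
  obtain ⟨r', hr', hZ⟩ := h1.exists_notMem_finset Z
  exact ⟨r', hZ, by rw [← dist_eq_norm]; exact hr'⟩

/-- entries of `Nᵀ Y N` -/
theorem entry_bound {F : Type} [NontriviallyNormedField F] {n : ℕ}
    (N Y : Matrix (Fin n) (Fin n) F) (η : ℝ) (hη : 0 ≤ η) (hY : ∀ i j, ‖Y i j‖ ≤ η)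
    (i j : Fin n) :
    ‖(N.transpose * Y * N) i j‖ ≤ (∑ i, ∑ j, ∑ k, ∑ l, ‖N k i‖ * ‖N l j‖) * η := by
  rw [Matrix.mul_apply]
  have h1 : ∀ l, (N.transpose * Y) i l * N l j = ∑ k, N k i * Y k l * N l j := by
    intro l
    rw [Matrix.mul_apply, Finset.sum_mul]
    rfl
  rw [Finset.sum_congr rfl (fun l _ => h1 l), Finset.sum_comm]
  have h2 : ‖∑ k, ∑ l, N k i * Y k l * N l j‖ ≤ ∑ k, ∑ l, ‖N k i‖ * ‖N l j‖ * η := by
    refine (norm_sum_le _ _).trans (Finset.sum_le_sum (fun k _ => ?_))
    refine (norm_sum_le _ _).trans (Finset.sum_le_sum (fun l _ => ?_))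
    rw [norm_mul, norm_mul]
    have h3 := mul_le_mul_of_nonneg_left (hY k l)
      (mul_nonneg (norm_nonneg (N k i)) (norm_nonneg (N l j)))
    calc ‖N k i‖ * ‖Y k l‖ * ‖N l j‖ = ‖N k i‖ * ‖N l j‖ * ‖Y k l‖ := by ring
      _ ≤ _ := h3
  refine h2.trans ?_
  have h4 : ∑ k, ∑ l, ‖N k i‖ * ‖N l j‖ * η = (∑ k, ∑ l, ‖N k i‖ * ‖N l j‖) * η := by
    rw [Finset.sum_mul]
    refine Finset.sum_congr rfl (fun k _ => ?_)
    rw [Finset.sum_mul]
  rw [h4]
  refine mul_le_mul_of_nonneg_right ?_ hη
  have hn : ∀ i j : Fin n, 0 ≤ ∑ k, ∑ l, ‖N k i‖ * ‖N l j‖ := fun i j =>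
    Finset.sum_nonneg (fun k _ => Finset.sum_nonneg (fun l _ =>
      mul_nonneg (norm_nonneg _) (norm_nonneg _)))
  refine (Finset.single_le_sum (f := fun j => ∑ k, ∑ l, ‖N k i‖ * ‖N l j‖)
    (fun j _ => hn i j) (Finset.mem_univ j)).trans ?_
  exact Finset.single_le_sum (f := fun i => ∑ j, ∑ k, ∑ l, ‖N k i‖ * ‖N l j‖)
    (fun i _ => Finset.sum_nonneg (fun j _ => hn i j)) (Finset.mem_univ i)

theorem step {F : Type} [Field F] {n : ℕ} (hSPL : T_SPL)
    (A B : Matrix (Fin (n + 1)) (Fin (n + 1)) F) (hA : A.transpose = A) (hB : B.transpose = B)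
    (hani : Ani B) (r : F) (hr : (dp A B).eval r = 0) :
    ∃ (M : Matrix (Fin (n + 1)) (Fin (n + 1)) F) (β : F) (A1 B1 : Matrix (Fin n) (Fin n) F),
      M.det ≠ 0 ∧ β ≠ 0 ∧ A1.transpose = A1 ∧ B1.transpose = B1 ∧ Ani B1 ∧
      M.transpose * B * M = bd β B1 ∧ M.transpose * A * M = bd (-(r * β)) A1 := by
  rw [dp_ev] at hr
  obtain ⟨v, hv0, hv⟩ := Matrix.exists_mulVec_eq_zero_iff.2 hr
  have hβ : qf B v ≠ 0 := hani v hv0
  obtain ⟨M, hM, hM0, hMs⟩ := hSPL F n B v hβ
  have hent : ∀ (G : Matrix (Fin (n + 1)) (Fin (n + 1)) F) (i j : Fin (n + 1)),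
      (M.transpose * G * M) i j =
        dotProduct (fun l => M l i) (G.mulVec (fun l => M l j)) := by
    intro G i j
    rw [Matrix.mul_assoc, Matrix.mul_apply]
    rfl
  have hcol : (fun l => M l 0) = v := funext hM0
  have hsymm : ∀ (G : Matrix (Fin (n + 1)) (Fin (n + 1)) F), G.transpose = G →
      (M.transpose * G * M).transpose = M.transpose * G * M := by
    intro G hG
    rw [Matrix.transpose_mul, Matrix.transpose_mul, Matrix.transpose_transpose, hG,
      Matrix.mul_assoc]
  have hAv : A.mulVec v = -(r • B.mulVec v) := by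
    rw [Matrix.add_mulVec, Matrix.smul_mulVec] at hv
    exact eq_neg_of_add_eq_zero_left hv
  have hsw : ∀ (G : Matrix (Fin (n + 1)) (Fin (n + 1)) F), G.transpose = G →
      ∀ z, dotProduct v (G.mulVec z) = dotProduct (G.mulVec v) z := by
    intro G hG z
    rw [Matrix.dotProduct_mulVec, ← Matrix.mulVec_transpose, hG]
  have hAz : ∀ z, dotProduct v (A.mulVec z) = -(r * dotProduct v (B.mulVec z)) := by
    intro z
    rw [hsw A hA, hAv, hsw B hB, neg_dotProduct, smul_dotProduct, smul_eq_mul]
  have hblk : ∀ (G : Matrix (Fin (n + 1)) (Fin (n + 1)) F) (g : F), G.transpose = G →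
      dotProduct v (G.mulVec v) = g →
      (∀ i : Fin n, dotProduct v (G.mulVec (fun l => M l i.succ)) = 0) →
      M.transpose * G * M = bd g ((M.transpose * G * M).submatrix Fin.succ Fin.succ) := by
    intro G g hG hg hs
    have h0 : ∀ j : Fin n, (M.transpose * G * M) 0 j.succ = 0 := by
      intro j
      rw [hent, hcol]
      exact hs j
    refine Matrix.ext (fun i j => ?_)
    refine Fin.cases ?_ (fun i' => ?_) i
    · refine Fin.cases ?_ (fun j' => ?_) j
      · rw [bd_00, hent, hcol]
        exact hg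
      · rw [bd_0s]
        exact h0 j'
    · refine Fin.cases ?_ (fun j' => ?_) j
      · rw [bd_s0]
        exact (congrFun (congrFun (hsymm G hG) 0) i'.succ).trans (h0 i')
      · rw [bd_ss, Matrix.submatrix_apply]
  have hBM := hblk B (qf B v) hB rfl hMs
  have hAM := hblk A (-(r * qf B v)) hA (hAz v) (fun i => by rw [hAz, hMs, mul_zero, neg_zero])
  refine ⟨M, qf B v, _, _, hM, hβ, ?_, ?_, ?_, hBM, hAM⟩
  · rw [Matrix.transpose_submatrix, hsymm A hA]
  · rw [Matrix.transpose_submatrix, hsymm B hB]
  · intro z hz h0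
    rw [← qf_bd0 (qf B v), ← hBM, qf_cong] at h0
    refine hani _ ?_ h0
    intro h1
    have h2 := Matrix.eq_zero_of_mulVec_eq_zero hM h1
    apply hz
    funext i
    have h3 := congrFun h2 i.succ
    rwa [Fin.cons_succ] at h3

theorem pf_DEN (hSPL : T_SPL) : T_DEN := by
  classical
  intro F _ n
  induction n with
  | zero =>
    intro A B hA _ _ Z δ hδ
    refine ⟨A, hA, fun i => i.elim0, fun r hr => ?_⟩
    rw [dp_ev, Matrix.det_isEmpty] at hr
    exact absurd hr one_ne_zero
  | succ n ih =>
    intro A B hA hB hani Z δ hδ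
    by_cases hex : ∃ r : F, (dp A B).eval r = 0
    · obtain ⟨r, hr⟩ := hex
      obtain ⟨M, β, A1, B1, hM, hβ, hA1, hB1, hani1, hBM, hAM⟩ :=
        step hSPL A B hA hB hani r hr
      set N := M⁻¹ with hN
      have hMN : M * N = 1 := Matrix.mul_nonsing_inv M (isUnit_iff_ne_zero.2 hM)
      have hNM : N * M = 1 := Matrix.nonsing_inv_mul M (isUnit_iff_ne_zero.2 hM)
      have hback : ∀ G : Matrix (Fin (n + 1)) (Fin (n + 1)) F,
          N.transpose * (M.transpose * G * M) * N = G := by
        intro G
        have h1 : N.transpose * M.transpose = 1 := by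
          rw [← Matrix.transpose_mul, hMN, Matrix.transpose_one]
        calc N.transpose * (M.transpose * G * M) * N
            = (N.transpose * M.transpose) * G * (M * N) := by
              simp only [Matrix.mul_assoc]
          _ = G := by rw [h1, hMN, Matrix.one_mul, Matrix.mul_one]
      have hNdet : N.det ≠ 0 := by
        intro h0
        have h1 := congrArg Matrix.det hMN
        rw [Matrix.det_mul, h0, mul_zero, Matrix.det_one] at h1
        exact zero_ne_one h1
      set K : ℝ := ∑ i, ∑ j, ∑ k, ∑ l, ‖N k i‖ * ‖N l j‖ with hK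
      have hK0 : 0 ≤ K := Finset.sum_nonneg (fun i _ => Finset.sum_nonneg (fun j _ =>
        Finset.sum_nonneg (fun k _ => Finset.sum_nonneg (fun l _ =>
          mul_nonneg (norm_nonneg _) (norm_nonneg _)))))
      set η : ℝ := δ / (K + 1) with hη
      have hη0 : 0 < η := div_pos hδ (by linarith)
      have hβn : 0 < ‖β‖ := norm_pos_iff.2 hβ
      obtain ⟨r', hr'Z, hr'⟩ := exists_near Z r (η / ‖β‖) (div_pos hη0 hβn)
      obtain ⟨A1', hA1's, hA1'c, hA1'r⟩ := ih A1 B1 hA1 hB1 hani1 (insert r' Z) η hη0
      refine ⟨N.transpose * bd (-(r' * β)) A1' * N, ?_, ?_, ?_⟩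
      · have hb : (bd (-(r' * β)) A1').transpose = bd (-(r' * β)) A1' := by
          refine Matrix.ext (fun i j => ?_)
          rw [Matrix.transpose_apply]
          refine Fin.cases ?_ (fun i' => ?_) i
          · refine Fin.cases ?_ (fun j' => ?_) j
            · rfl
            · rfl
          · refine Fin.cases ?_ (fun j' => ?_) j
            · rfl
            · rw [bd_ss, bd_ss]
              exact congrFun (congrFun hA1's i') j'
        rw [Matrix.transpose_mul, Matrix.transpose_mul, Matrix.transpose_transpose, hb,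
          Matrix.mul_assoc]
      · intro i j
        have h1 : A = N.transpose * bd (-(r * β)) A1 * N := by
          rw [← hAM, hback]
        have h2 : (N.transpose * bd (-(r' * β)) A1' * N) i j - A i j =
            (N.transpose * (bd (-(r' * β)) A1' - bd (-(r * β)) A1) * N) i j := by
          rw [Matrix.mul_sub, Matrix.sub_mul, Matrix.sub_apply, ← h1]
        rw [h2]
        have h3 : ∀ k l, ‖(bd (-(r' * β)) A1' - bd (-(r * β)) A1) k l‖ ≤ η := by
          intro k l
          rw [Matrix.sub_apply]
          refine Fin.cases ?_ (fun k' => ?_) k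
          · refine Fin.cases ?_ (fun l' => ?_) l
            · rw [bd_00, bd_00]
              have h4 : -(r' * β) - -(r * β) = -((r' - r) * β) := by ring
              rw [h4, norm_neg, norm_mul]
              exact ((lt_div_iff₀ hβn).1 hr').le
            · rw [bd_0s, bd_0s, sub_zero, norm_zero]
              exact hη0.le
          · refine Fin.cases ?_ (fun l' => ?_) l
            · rw [bd_s0, bd_s0, sub_zero, norm_zero]
              exact hη0.le
            · rw [bd_ss, bd_ss]
              exact (hA1'c k' l').le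
        refine lt_of_le_of_lt (entry_bound N _ η hη0.le h3 i j) ?_
        rw [← hK, hη, ← mul_div_assoc, div_lt_iff₀ (by linarith)]
        nlinarith
      · have h1 : dp (N.transpose * bd (-(r' * β)) A1' * N) B =
            C (N.det * N.det * β) * ((X - C r') * dp A1' B1) := by
          have h2 : B = N.transpose * bd β B1 * N := by
            rw [← hBM, hback]
          rw [h2, dp_cong, dp_bd]
          simp only [C_mul, C_neg]
          ring
        rw [h1]
        have hc : N.det * N.det * β ≠ 0 := mul_ne_zero (mul_ne_zero hNdet hNdet) hβ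
        have hr'n : (dp A1' B1).eval r' ≠ 0 := by
          intro h0
          exact (hA1'r r' h0).1 (Finset.mem_insert_self _ _)
        intro s hs
        rw [eval_mul, eval_mul, eval_C, eval_sub, eval_X, eval_C] at hs
        have hd : (C (N.det * N.det * β) * ((X - C r') * dp A1' B1)).derivative.eval s =
            (N.det * N.det * β) * ((dp A1' B1).eval s +
              (s - r') * (dp A1' B1).derivative.eval s) := by
          rw [derivative_C_mul, derivative_mul, derivative_sub, derivative_X, derivative_C,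
            sub_zero, one_mul, eval_mul, eval_C, eval_add, eval_mul, eval_sub, eval_X, eval_C]
        rw [hd]
        rcases mul_eq_zero.1 hs with h | h
        · exact absurd h hc
        · rcases mul_eq_zero.1 h with h | h
          · have hsr : s = r' := sub_eq_zero.1 h
            subst hsr
            refine ⟨hr'Z, ?_⟩
            rw [sub_self, zero_mul, add_zero]
            exact mul_ne_zero hc hr'n
          · obtain ⟨h5, h6⟩ := hA1'r s h
            refine ⟨fun hz => h5 (Finset.mem_insert_of_mem hz), ?_⟩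
            rw [h, zero_add]
            refine mul_ne_zero hc (mul_ne_zero ?_ h6)
            intro h7
            rw [sub_eq_zero] at h7
            exact h5 (h7 ▸ Finset.mem_insert_self _ _)
    · push Not at hex
      refine ⟨A, hA, fun i j => ?_, fun r hr => absurd hr (hex r)⟩
      rw [sub_self, norm_zero]
      exact hδ

end Pool.Agent.H45.N6D
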